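import Pool.Agent.R409.RC.Seq

/-!
# The order and the leading coefficient at the centre of the L-functions of all varieties from finite
sums over the primes, without any hypothesis on the zeros

Let `X` be a smooth projective variety over a number field `K` (for example `ℚ`), let `i ≥ 0` (an odd
number in the conjecture of Beilinson) and let `c = (i + 1)/2` be the central point of `L(H^i(X), s)`.
We prove an asymptotic formula for finite sums of the traces of Frobenius, which determines the order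
of `L(H^i(X), s)` at `c` and its leading coefficient `L^*(c)`, whenever `L(H^i(X), s)` has a meromorphic
continuation to a neighbourhood of the real segment `[c, c + 1/2]`, without any hypothesis on its zeros
and poles.

For real numbers `γ > π/2` and `T > 0` let

`V_γ(T) = ∑ e^{iγu} / Γ(1 + u) · tr(Frob_v^k) / (k q_v^{kc})`, `u = k log q_v / T`,

the finite sum over the powers `q_v^k ≤ exp (exp T)` of the norms of the primes. Then

`V_γ(T) = log |L^*(c)| - π i n - r (log T - Λ_γ) + O(1/T)`,

where `r` is the order at `c`, `n` is the number of the real zeros to the right of `c` minus the number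
of the real poles to the right of `c`, and `Λ_γ = ∫_0^∞ (e^{-t} - e^{iγt} / Γ(1 + t)) dt / t`. In
particular the parts (iii) and (iv) of the conjecture of Beilinson, `r = dim V` and
`L^*(c) = b det Π det <,>` with a rational number `b ≠ 0`, are equivalent to an asymptotic formula for
`exp V_γ(T)`, and (iii) is equivalent to the growth of `Re V_γ(T)` along one sequence `T_n → ∞`.

With the weights `1` in place of `e^{iγu} / Γ(1 + u)` the corresponding formula would imply the Riemann
hypothesis for `L(H^i(X), s)` (Goldfeld, Kuo and Murty, Conrad).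

Proof. By Hankel's formula the full series over all prime powers is an integral of
`exp (exp z) log L(H^i(X), c + (z - iγ)/T)` over the boundary of a half strip. The part of the contour on
which `exp (exp z)` is not extremely small lies below the real axis and approaches it, so that it meets
no zeros and poles. The abstract theorem on such integrals is taken from the file
`Pool.Agent.W187.UR.NF` on elliptic curves.
-/

set_option autoImplicit false

namespace Pool.Agent.Results.MP_29b22a_nt.CentralFiniteSums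

open NumberField IsDedekindDomain Filter Topology
open Pool.Agent.TH958.BV (IsFrobenius)

section defs

variable {K : Type} [Field K] [NumberField K] {n : ℕ}

/-- `α_{v,1}, …, α_{v,N}` are the parameters of the Euler factors of `L(H^i(X), s)`: for almost all
primes `v` these are the eigenvalues of the geometric Frobenius on `H^i(X)`, for all `v` they are
numbers of absolute value at most `q_v^{i/2}` and zeros of a polynomial with real coefficients (at a
bad prime the eigenvalues of Frobenius on the inertia invariants, completed by zeros). -/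
def IsParameter (X : Set (MvPolynomial (Fin n) (𝓞 K))) (d i : ℕ) {N : ℕ}
    (α : HeightOneSpectrum (𝓞 K) → Fin N → ℂ) : Prop :=
  (∀ᶠ v in cofinite, IsFrobenius X d i v (α v)) ∧
    (∀ v j, ‖α v j‖ ≤ (Ideal.absNorm v.asIdeal : ℝ) ^ ((i : ℝ) / 2)) ∧
    ∀ v, ∃ P : Polynomial ℝ,
      P.map (algebraMap ℝ ℂ) = ∏ j, (Polynomial.X - Polynomial.C (α v j))

/-- The L-function `L(H^i(X), s) = ∏_v ∏_j (1 - α_{v,j} q_v^{-s})⁻¹`. -/
noncomputable def LFun {N : ℕ} (α : HeightOneSpectrum (𝓞 K) → Fin N → ℂ) (s : ℂ) : ℂ :=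
  ∏' v : HeightOneSpectrum (𝓞 K), ∏ j, (1 - α v j * (Ideal.absNorm v.asIdeal : ℂ) ^ (-s))⁻¹

/-- The central point `c = (i + 1)/2`, a real number. -/
noncomputable def centre (i : ℕ) : ℝ := ((i : ℝ) + 1) / 2

/-- `F` is meromorphic at the points of the real segment `[c, c + 1/2]`, and it is the L-function for
`Re s > c + 1/2`. -/
def IsContinuation (i : ℕ) {N : ℕ} (α : HeightOneSpectrum (𝓞 K) → Fin N → ℂ) (F : ℂ → ℂ) : Prop :=
  (∀ σ : ℝ, centre i ≤ σ → σ ≤ centre i + 1 / 2 → MeromorphicAt F (σ : ℂ)) ∧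
    ∀ s : ℂ, centre i + 1 / 2 < s.re → F s = LFun α s

/-- The weight `e^{iγu} / Γ(1 + u)`. -/
noncomputable def weight (γ u : ℝ) : ℂ :=
  Complex.exp (Complex.I * (γ * u)) / Complex.Gamma (1 + u)

/-- The finite sum `V_γ(T)` over the pairs of a prime `v` and `k ≥ 1` with `q_v^k ≤ exp (exp T)`. -/
noncomputable def finiteSum (i : ℕ) {N : ℕ} (α : HeightOneSpectrum (𝓞 K) → Fin N → ℂ)
    (γ T : ℝ) : ℂ :=
  ∑ᶠ x ∈ {x : HeightOneSpectrum (𝓞 K) × ℕ | 1 ≤ x.2 ∧
      (Ideal.absNorm x.1.asIdeal : ℝ) ^ x.2 ≤ Real.exp (Real.exp T)},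
    weight γ (x.2 * Real.log (Ideal.absNorm x.1.asIdeal) / T) *
      ((∑ j, α x.1 j ^ x.2) /
        (x.2 * (((Ideal.absNorm x.1.asIdeal : ℝ) ^ centre i : ℝ) : ℂ) ^ x.2))

/-- `Λ_γ = ∫_0^∞ (e^{-t} - e^{iγt} / Γ(1 + t)) dt / t`. -/
noncomputable def lam (γ : ℝ) : ℂ :=
  ∫ t in Set.Ioi (0 : ℝ), (Real.exp (-t) - weight γ t) / t

/-- The number of the real zeros minus the number of the real poles of `F` to the right of `c`, with
multiplicities. -/
noncomputable def excess (i : ℕ) (F : ℂ → ℂ) : ℤ :=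
  ∑ᶠ σ ∈ Set.Ioi (centre i), (meromorphicOrderAt F (σ : ℂ)).untop₀

end defs

section bridge

variable {K : Type} [Field K] [NumberField K] {n i N : ℕ}
  {α : HeightOneSpectrum (𝓞 K) → Fin N → ℂ} {F : ℂ → ℂ}

theorem weight_eq {γ u : ℝ} : weight γ u =
    Complex.exp ((γ * u : ℝ) * Complex.I) * (Pool.Agent.W189.ML.om u : ℂ) := by
  unfold weight Pool.Agent.W189.ML.om
  have h1 : Complex.Gamma (1 + u) = ((Real.Gamma (1 + u) : ℝ) : ℂ) := by
    rw [← Complex.Gamma_ofReal]
    push_cast
    rfl
  rw [h1, div_eq_mul_inv]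
  push_cast
  congr 2
  ring

theorem lam_eq (γ : ℝ) : lam γ = Pool.Agent.W187.UR.Lam γ := by
  unfold lam Pool.Agent.W187.UR.Lam
  refine MeasureTheory.integral_congr_ae (Filter.Eventually.of_forall fun t => ?_)
  simp only
  rw [weight_eq]
  unfold Pool.Agent.W189.ML.om
  push_cast
  rfl

theorem term_eq (γ T : ℝ) (v : HeightOneSpectrum (𝓞 K)) (k : ℕ) :
    Pool.Agent.R409.RC.pterm Pool.Agent.R409.RC.qv (Pool.Agent.R409.RC.av i α) γ T v k =
    weight γ (k * Real.log (Ideal.absNorm v.asIdeal) / T) *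
      ((∑ j, α v j ^ k) / (k * (((Ideal.absNorm v.asIdeal : ℝ) ^ centre i : ℝ) : ℂ) ^ k)) := by
  unfold Pool.Agent.R409.RC.pterm
  rw [weight_eq]
  have hq := Pool.Agent.R409.RC.qv_pos v
  have h1 : ∑ j, Pool.Agent.R409.RC.av i α v j ^ k =
      (∑ j, α v j ^ k) * ((((Ideal.absNorm v.asIdeal : ℝ) ^ centre i : ℝ) : ℂ) ^ k)⁻¹ := by
    rw [Finset.sum_mul]
    refine Finset.sum_congr rfl fun j _ => ?_
    unfold Pool.Agent.R409.RC.av centre
    rw [mul_pow, Real.rpow_neg hq.le, Complex.ofReal_inv, inv_pow]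
    rfl
  rw [h1]
  have h2 : Pool.Agent.R409.RC.qv v = (Ideal.absNorm v.asIdeal : ℝ) := rfl
  rw [h2]
  generalize (∑ j, α v j ^ k) = A
  generalize (((Ideal.absNorm v.asIdeal : ℝ) ^ centre i : ℝ) : ℂ) ^ k = D
  have e : A * D⁻¹ / k = A / (k * D) := by
    rw [div_eq_mul_inv, div_eq_mul_inv A, mul_inv]
    ring
  rw [e]
  ring

theorem excess_eq : excess i F = Pool.Agent.R409.RC.exc i F := rfl

theorem scont (hF : IsContinuation i α F) : Pool.Agent.R409.RC.SCont i α F where
  mer := fun σ h1 h2 => hF.1 σ h1 (by unfold centre; linarith)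
  eq := fun s hs => hF.2 s (by unfold centre; linarith)

theorem sum_eq {X : Set (MvPolynomial (Fin n) (𝓞 K))} {d : ℕ} (hα : IsParameter X d i α)
    (γ T : ℝ) : finiteSum i α γ T =
    Pool.Agent.R409.RC.fsum Pool.Agent.R409.RC.qv (Pool.Agent.R409.RC.av i α) γ T := by
  have E := Pool.Agent.R409.RC.ed hα.2.1 fun v =>
    Pool.Agent.R409.RC.RealPoly.ci (hα.2.2 v)
  rw [E.fsum_eq]
  unfold finiteSum
  refine finsum_mem_congr rfl fun x _ => ?_
  exact (term_eq γ T x.1 x.2).symm

end bridge

/-- **The order and the leading coefficient at the centre from finite sums.** Let `X` be a smooth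
projective variety over a number field `K`, `α` the parameters of `L(H^i(X), s)`, `c = (i + 1)/2`, and
let `F` be a continuation of `L(H^i(X), s)` which is meromorphic on the real segment `[c, c + 1/2]`. Then
`F` has a finite order `r` at `c` and a real leading coefficient `l ≠ 0`, and for every `γ > π/2`:

* `V_γ(T) = log |l| - π i n - r (log T - Λ_γ) + O(1/T)`, where `n` is the excess of the real zeros over
  the real poles to the right of `c`;
* `ord_c F = ρ` for an integer `ρ` if and only if `Re V_γ(T_k) / log T_k → -ρ` for one sequence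
  `T_k → ∞`;
* `ord_c F = ρ` and the leading coefficient is `b B`, with a rational number `b ≠ 0`, if and only if
  `T ^ ρ exp V_γ(T) → b B exp(ρ Λ_γ)` for a rational number `b ≠ 0` (`B ≠ 0` real, `ρ` an integer; for
  Beilinson `ρ = dim V` and `B = det Π det <,>`). -/
theorem result (K : Type) [Field K] [NumberField K] (n : ℕ)
    (X : Set (MvPolynomial (Fin n) (𝓞 K))) (d i N : ℕ)
    (α : HeightOneSpectrum (𝓞 K) → Fin N → ℂ) (_ : IsParameter X d i α)
    (F : ℂ → ℂ) (_ : IsContinuation i α F) :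
    ∃ (r : ℤ) (l : ℝ), l ≠ 0 ∧ meromorphicOrderAt F (centre i) = r ∧
      meromorphicTrailingCoeffAt F (centre i) = l ∧
      ∀ γ : ℝ, Real.pi / 2 < γ →
        (∃ C T₀ : ℝ, ∀ T : ℝ, T₀ ≤ T → ‖finiteSum i α γ T -
          (Real.log |l| - Real.pi * Complex.I * excess i F - r * (Real.log T - lam γ))‖ ≤ C / T) ∧
        (∀ ρ : ℤ, meromorphicOrderAt F (centre i) = ρ ↔
          ∃ T : ℕ → ℝ, Tendsto T atTop atTop ∧
            Tendsto (fun k => (finiteSum i α γ (T k)).re / Real.log (T k)) atTop (𝓝 (-ρ))) ∧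
        ∀ (ρ : ℤ) (B : ℝ), B ≠ 0 →
          ((meromorphicOrderAt F (centre i) = ρ ∧
              ∃ b : ℚ, b ≠ 0 ∧ meromorphicTrailingCoeffAt F (centre i) = b * B) ↔
            ∃ b : ℚ, b ≠ 0 ∧ Tendsto (fun T : ℝ => (T : ℂ) ^ ρ * Complex.exp (finiteSum i α γ T))
              atTop (𝓝 (b * B * Complex.exp (ρ * lam γ)))) := by
  rename_i hα hF
  obtain ⟨m, l, hl, hm, hlc, hexp, hlaw⟩ := (scont hF).law hα.2.1 fun v =>
    Pool.Agent.R409.RC.RealPoly.ci (hα.2.2 v)
  have hm' : meromorphicOrderAt F (centre i) = m := hm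
  have hl' : meromorphicTrailingCoeffAt F (centre i) = l := hlc
  refine ⟨m, l, hl, hm', hl', fun γ hγ => ?_⟩
  obtain ⟨C, T₀, hC, hT₀, hT⟩ := hlaw γ hγ
  have hL : Pool.Agent.R409.RC.Law (finiteSum i α γ) m
      (Real.log |l| - Real.pi * excess i F * Complex.I) (lam γ) := by
    refine ⟨C, T₀, hC, hT₀, fun T hT' => ?_⟩
    rw [sum_eq hα, lam_eq, excess_eq]
    exact hT T hT'
  rw [← excess_eq] at hexp
  refine ⟨⟨C, T₀, fun T hT' => ?_⟩, fun ρ => ?_, fun ρ B hB => ?_⟩
  · rw [sum_eq hα, lam_eq, excess_eq]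
    refine le_trans (le_of_eq ?_) (hT T hT')
    congr 1
    ring
  · rw [hm']
    have h1 := hL.iff_seq (ρ : ℝ)
    constructor
    · intro h2
      have h3 : m = ρ := by exact_mod_cast h2
      obtain ⟨T, hT1, hT2⟩ := h1.1 (by exact_mod_cast h3)
      exact ⟨T, hT1, by exact_mod_cast hT2⟩
    · rintro ⟨T, hT1, hT2⟩
      have h2 := h1.2 ⟨T, hT1, by exact_mod_cast hT2⟩
      have h3 : m = ρ := by exact_mod_cast h2
      rw [h3]
  · rw [hm', hl']
    constructor
    · rintro ⟨h1, b, hb, h2⟩
      refine ⟨b, hb, ?_⟩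
      have hbB : (b : ℂ) * B ≠ 0 := mul_ne_zero (by exact_mod_cast hb) (by exact_mod_cast hB)
      have h3 := (hL.iff_exp ρ hbB).1 ⟨by exact_mod_cast h1, by rw [hexp, h2]⟩
      refine h3.congr fun T => ?_
      rw [mul_comm]
    · rintro ⟨b, hb, h1⟩
      have hbB : (b : ℂ) * B ≠ 0 := mul_ne_zero (by exact_mod_cast hb) (by exact_mod_cast hB)
      obtain ⟨h2, h3⟩ := (hL.iff_exp ρ hbB).2 (by
        refine h1.congr fun T => ?_
        rw [mul_comm])
      refine ⟨by rw [h2], b, hb, ?_⟩
      rw [← h3, hexp]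

end Pool.Agent.Results.MP_29b22a_nt.CentralFiniteSums
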