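import Pool.Agent.R791.Frob
import Pool.Agent.R791.Mero3

/-!
# Leading coefficients at the centre as limits of finite sums of Frobenius traces

Let `X` be smooth and projective over `ℚ` (or over a number field `K`), `i = 2m - 1` odd, and `L(s)` the `L`-function of
`H^i(X)` without the Euler factors at a finite set of primes that contains the primes of bad reduction; its Euler factor
at `v` is `∏ⱼ (1 - α_{v,j} Nv^(-s))⁻¹`, where the eigenvalues `α_{v,j}` of Frobenius have absolute value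
`Nv^(m-1/2)` and real (rational) power sums (Deligne). All that follows is proved for every system of numbers
`α_{v,j}`, `v` a prime of `K`, with `|α_{v,j}| ≤ Nv^(m-1/2)` and real power sums. For `1 < ρ < ρ'` let

`w_ρ(u) = (2π)⁻¹ ∫ Re (exp (z - u z^(1/ρ)) / z) dt`, `z = 1 + it`, and
`T_ρ(Y) = ∑_{Nv^k ≤ exp((log Y)^ρ')} w_ρ(k log Nv / log Y) (∑ⱼ α_{v,j}^k) / (k Nv^(km))`,

a FINITE sum of traces of Frobenius, and let `γ` be Euler's constant.

(1) For `ρ₀ ≥ 1`, a real number `r` and `A > 0`, and with no assumption on the continuation of `L(s)`: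
`T_ρ(Y) + r log log Y → log A - r γ/ρ` for all `ρ > ρ₀` if and only if `L(s)` has a holomorphic continuation without
zeros to the sector `|arg (s-m)| < π/(2ρ₀)` and `L(s)/(s-m)^r → A` as `s → m` in the smaller sectors.
If `T_{ρ₀}(Y) + r log log Y` converges for one `ρ₀ > 1`, to `l` say, then the formula holds for all `ρ > ρ₀`, with
`log A = l + r γ/ρ₀`.

(2) If `T_ρ(Y) + r log log Y` converges to `l` for one `ρ > 1`, then every meromorphic continuation of `L(s)` along the
real axis to a neighbourhood of `s = m` has the order `r` (in particular `r` is an integer) and the leading coefficient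
`exp (l + r γ/ρ)` at `s = m`.

(3) If `L(s)` has a meromorphic continuation to a neighbourhood of `s = m` and to the sector
`|arg (s-m)| < π/(2ρ₀)`, without zeros and poles in the sector, then its leading coefficient `L*` at `s = m` is a positive
real number, and for every integer `r` and every `A > 0`: the order at `s = m` is `r` and `L* = A` if and only if
`T_ρ(Y) + r log log Y → log A - r γ/ρ` for all `ρ > ρ₀`, if and only if for one `ρ > ρ₀`.

So parts (iii) and (iv) of Beilinson's conjecture for `H^i(X)` say, taken together, that for `r = dim V^m` the finite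
sums `T_ρ(Y) + r log log Y` converge, and that `exp` of the limit is a rational multiple of
`exp (- r γ/ρ) det Π det ⟨ , ⟩` (the missing Euler factors change `L*` by the rational numbers `P_p(p^(-m))`, if these are
not zero). For central values `L(X, m) ≠ 0`, `r = 0`, the formula is
`L(X, m) = lim exp T_ρ(Y)`, for every `ρ > 1` if there are no zeros with `Re s > m`.
-/

set_option autoImplicit false

namespace Pool.Agent.Results.MP_29b22a_nt.CentralLeadingTerm

open Filter Topology Complex NumberField IsDedekindDomain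
open Pool.Agent.TH942.ES Pool.Agent.R791.SectGen Pool.Agent.R791.Frob Pool.Agent.R791.Mero

variable {K : Type} [Field K] [NumberField K] {d m : ℕ}

/-- The sector `|arg (s-m)| < π/(2ρ)`, `s ≠ m`. -/
def Sector (m : ℕ) (ρ : ℝ) : Set ℂ := {s | s ≠ m ∧ |(s - m).arg| < Real.pi / (2 * ρ)}

/-- `T_ρ(Y) + r log log Y → l`. -/
def Limit (V : Frobenius K d m) (ρ ρ' r l : ℝ) : Prop :=
  Tendsto (fun Y : ℝ => V.sumPow ρ ρ' Y + r * Real.log (Real.log Y)) atTop (𝓝 l)

/-- **Order and leading coefficient at the centre as limits of finite sums of Frobenius traces.** -/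
theorem result (V : Frobenius K d m) :
    (∀ ρ₀ : ℝ, 1 ≤ ρ₀ → ∀ r A : ℝ, 0 < A →
      ((∀ ρ ρ' : ℝ, ρ₀ < ρ → ρ < ρ' →
        Limit V ρ ρ' r (Real.log A - r * Real.eulerMascheroniConstant / ρ)) ↔
      ∃ G : ℂ → ℂ,
        (∀ s : ℂ, s ∈ Sector m ρ₀ ∨ m + 1 / 2 < s.re → DifferentiableAt ℂ G s ∧ G s ≠ 0) ∧
        (∀ s : ℂ, m + 1 / 2 < s.re → G s = V.LSeries s) ∧
        ∀ ρ : ℝ, ρ₀ < ρ → Tendsto (fun s => G s / (s - m) ^ (r : ℂ)) (𝓝[Sector m ρ] (m : ℂ))
          (𝓝 (A : ℂ)))) ∧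
    (∀ ρ₀ ρ₀' r l : ℝ, 1 < ρ₀ → ρ₀ < ρ₀' → Limit V ρ₀ ρ₀' r l →
      ∀ ρ ρ' : ℝ, ρ₀ < ρ → ρ < ρ' →
        Limit V ρ ρ' r (l + r * Real.eulerMascheroniConstant / ρ₀ -
          r * Real.eulerMascheroniConstant / ρ)) ∧
    (∀ F : ℂ → ℂ, (∀ x : ℝ, m ≤ x → MeromorphicAt F x) →
      (∀ s : ℂ, m + 1 / 2 < s.re → F s = V.LSeries s) →
      ∀ ρ ρ' r l : ℝ, 1 < ρ → ρ < ρ' → Limit V ρ ρ' r l →
        ∃ n : ℤ, (n : ℝ) = r ∧ meromorphicOrderAt F m = n ∧ meromorphicTrailingCoeffAt F m =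
          Real.exp (l + r * Real.eulerMascheroniConstant / ρ)) ∧
    ∀ (F : ℂ → ℂ) (ρ₀ : ℝ), 1 ≤ ρ₀ → MeromorphicAt F m →
      (∀ s ∈ Sector m ρ₀, DifferentiableAt ℂ F s ∧ F s ≠ 0) →
      (∀ s : ℂ, m + 1 / 2 < s.re → F s = V.LSeries s) →
      (∃ A : ℝ, 0 < A ∧ meromorphicTrailingCoeffAt F m = A) ∧
      ∀ (r : ℤ) (A : ℝ), 0 < A → List.TFAE [
        meromorphicOrderAt F m = r ∧ meromorphicTrailingCoeffAt F m = A,
        ∀ ρ ρ' : ℝ, ρ₀ < ρ → ρ < ρ' →
          Limit V ρ ρ' r (Real.log A - r * Real.eulerMascheroniConstant / ρ),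
        ∃ ρ ρ' : ℝ, ρ₀ < ρ ∧ ρ < ρ' ∧
          Limit V ρ ρ' r (Real.log A - r * Real.eulerMascheroniConstant / ρ)] := by
  have E := V.sys
  have hF : ∀ ρ ρ' r l : ℝ, Limit V ρ ρ' r l ↔ Tendsto (fun Y : ℝ =>
      StE (fun v : {v // v ∉ V.bad} => Pool.Agent.H921R2.TatePole.nm v.1) V.al ρ ρ' Y +
        r * Real.log (Real.log Y)) atTop (𝓝 l) := by
    intro ρ ρ' r l
    unfold Limit
    simp only [V.sumPow_eq]
  have hS : ∀ ρ, Sector m ρ = SectorAt m ρ := fun ρ => by
    unfold Sector SectorAt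
    simp only [Complex.ofReal_natCast]
  have hL : ∀ s : ℂ, Pool.Agent.TH942.ES.LE
      (fun v : {v // v ∉ V.bad} => Pool.Agent.H921R2.TatePole.nm v.1) V.al (s - ((m : ℝ) : ℂ)) =
      V.LSeries s := V.LE_eq
  have hL' : ∀ s : ℂ, Pool.Agent.TH942.ES.LE
      (fun v : {v // v ∉ V.bad} => Pool.Agent.H921R2.TatePole.nm v.1) V.al (s - (m : ℂ)) =
      V.LSeries s := fun s => by
    have := V.LE_eq s
    rwa [Complex.ofReal_natCast] at this
  refine ⟨fun ρ₀ h r A hA => ?_, fun ρ₀ ρ₀' r l h h' h1 ρ ρ' hρ hρ' => ?_,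
    fun F hF1 hF2 ρ ρ' r l h h' h1 => ?_, fun F ρ₀ h hF0 hF1 hF2 => ?_⟩
  · simp only [hF]
    rw [T_iff E V.hreal m h r hA]
    simp only [hL', hS, Complex.ofReal_natCast]
  · rw [hF] at h1 ⊢
    exact T_single E h h' h1 ρ ρ' hρ hρ'
  · rw [hF] at h1
    have := T_order E V.hreal m (F := F) hF1 (fun s hs => by rw [hL]; exact hF2 s hs) h h' h1
    simpa only [Complex.ofReal_natCast] using this
  · have hF0' : MeromorphicAt F ((m : ℝ) : ℂ) := by rwa [Complex.ofReal_natCast]
    have hF1' : ∀ s ∈ SectorAt m ρ₀, DifferentiableAt ℂ F s ∧ F s ≠ 0 := by rwa [← hS]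
    have hF2' : ∀ s : ℂ, (m : ℝ) + 1 / 2 < s.re → F s = Pool.Agent.TH942.ES.LE
      (fun v : {v // v ∉ V.bad} => Pool.Agent.H921R2.TatePole.nm v.1) V.al (s - ((m : ℝ) : ℂ)) :=
      fun s hs => by rw [hL]; exact hF2 s hs
    obtain ⟨n, κ, hκ, hn, hκ2, h2⟩ := T_of_cont E V.hreal m h hF0' hF1' hF2'
    rw [Complex.ofReal_natCast] at hn hκ2
    refine ⟨⟨κ, hκ, hκ2⟩, fun r A hA => ?_⟩
    tfae_have 1 → 2 := by
      rintro ⟨h1, h3⟩ ρ ρ' hρ hρ'
      rw [h1] at hn
      rw [h3] at hκ2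
      have hn' : r = n := by exact_mod_cast hn
      have hA' : A = κ := by exact_mod_cast hκ2
      rw [hF, hn', hA']
      exact h2 ρ ρ' hρ hρ'
    tfae_have 2 → 3 := fun h1 => ⟨ρ₀ + 1, ρ₀ + 2, by linarith, by linarith,
      h1 _ _ (by linarith) (by linarith)⟩
    tfae_have 3 → 1 := by
      rintro ⟨ρ, ρ', hρ, hρ', h1⟩
      rw [hF] at h1
      obtain ⟨n', hn', h3, h4⟩ := T_order E V.hreal m (F := F) (fun x hx => by
        rcases hx.eq_or_lt with hx | hx
        · rw [← hx]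
          exact hF0'
        · exact (axis_analytic h (fun s hs => (hF1' s hs).1) hx).meromorphicAt) hF2'
        (by linarith) hρ' h1
      rw [Complex.ofReal_natCast] at h3 h4
      have hn'' : n' = r := by exact_mod_cast hn'
      refine ⟨by rw [h3, hn''], ?_⟩
      rw [h4, sub_add_cancel, Real.exp_log hA]
    tfae_finish

end Pool.Agent.Results.MP_29b22a_nt.CentralLeadingTerm
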