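import Pool.Agent.R904.HB.Main

/-!
# Beilinson's conjecture on heights and central values: one diagonal suffices

The four parts of the conjecture for a variety `X` of dimension `n` and `i = 2 m - 1`:
(i) `V^m` has finite dimension; (ii) the height pairing between `V^m` and `V^(n+1-m)` is
non-degenerate; (iii) `dim V^m` is the order of `L(H^i(X), s)` at `s = m`; (iv) the leading
coefficient is the product of the period and the determinant of the height pairing, up to `ℚ^*`.

The parts (i), (ii), (iii) for all `X` and `m` follow from the cases on any one diagonal
`n = 2 m + a`, for example from the central cases `n = i`. All four parts for all `X` and `m`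
follow from the cases on any one non-central diagonal, for example from the cases `i = n - 1`. The
central cases of all four parts imply (iv) for all `X` and `m` up to square roots of rational
numbers.
-/

set_option autoImplicit false

open Pool.Agent.H914 Pool.Agent.H914.VarClass Pool.Agent.H914.VarClass.Obj
open Pool.Agent.R903 Pool.Agent.R904.RK Pool.Agent.R904.HB

universe u v w

namespace Pool.Agent.Results.MP_29b22a_nt.OneDiagonal

/-- Let `𝒱` be a class of smooth proper geometrically irreducible varieties over `k` (in the problem
`k = ℚ`) which is closed under products, with Chow groups `C`, a Weil cohomology theory `W`, Euler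
factors `E`, and heights and periods `D` with the formal properties `IsHeight` and `IsPeriod`. Let
`L` be the projective line and let `S` be a class of varieties in `𝒱` (for example all of them, or
the rational ones) which is closed under products with `L`. The class `Adm E D S` consists of the
varieties in `S` which satisfy (H1) for all odd degrees and (H2) for all codimensions.

1. For every integer `a`, (i), (ii), (iii) hold for all `X` in `Adm E D S` and all `m ≥ 1` if and
   only if they hold if `dim X = 2 m + a`.
2. For every integer `a ≠ -1`, (i), (ii), (iii), (iv) hold for all `X` in `Adm E D S` and all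
   `m ≥ 1` if and only if they hold if `dim X = 2 m + a`.
3. If (i), (ii), (iii), (iv) hold for all `X` in `Adm E D S` with `dim X = 2 m - 1`, then the
   squares of both sides of (iv) agree up to `ℚ^*` for all `X` in `Adm E D S` and all `m ≥ 1`. -/
theorem result {k : Type u} [Field k] {𝒱 : VarClass k} {C : ChowTheory.{u, v} 𝒱}
    (hC : C.Polarized) (W : WeilTheory.{u, v, w} C) (E : EulerFactors 𝒱) (hE : E.Basic)
    (hLef : E.Lefschetz) (D : HeightData C) (hD : IsHeight W D) {L : 𝒱.Obj} (hL : IsLine' C E L)
    (hper : IsPeriod D L) (hH2 : ∀ X, D.H2 X → D.H2 (X.prod L)) (S : Set 𝒱.Obj)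
    (hS : ∀ X ∈ S, X.prod L ∈ S) :
    (∀ a : ℤ, Everywhere (Ranks W E D) (Adm E D S) ↔ OnDiagonal (Ranks W E D) (Adm E D S) a) ∧
    (∀ a : ℤ, a ≠ -1 →
      (Everywhere (Leading W E D) (Adm E D S) ↔ OnDiagonal (Leading W E D) (Adm E D S) a)) ∧
    (OnDiagonal (Leading W E D) (Adm E D S) (-1) →
      Everywhere (LeadingSq W E D) (Adm E D S)) :=
  ⟨fun a => ⟨fun h X hX m hm _ => h X hX m hm, ranks_of_diag hC hE hLef hD hL.isLine S hS hH2 a⟩,
    fun a ha => ⟨fun h X hX m hm _ => h X hX m hm,
      leading_of_diag hC hE hLef hD hL.isLine hper S hS hH2 a ha⟩,
    sq_of_center hC hE hLef hD hL.isLine hper S hS hH2⟩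

end Pool.Agent.Results.MP_29b22a_nt.OneDiagonal
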